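import Pool.Agent.Helper45.L.Defs

/-!
# Project TW (MP_e66f84_ag), block GC: hyperelliptic curves

`y² = f(x)`, `f` separable of degree at least five, over a field of characteristic zero: `sqrt f` is
not in `kbar(x)`, and `kbar(x, sqrt f)` is not rational.
-/

set_option autoImplicit false

namespace Pool.Agent.TW

open Polynomial VC Pool.Agent.L

section core

variable {E : Type*} [Field E]

/-- a square factor of `A - θ B` divides the Wronskian -/
private theorem dvd_wr76 {A B s : E[X]} {θ : E} (h : Associated (s ^ 2) (A - C θ * B)) :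
    s ∣ wronskian A B := by
  obtain ⟨u, hu⟩ := h
  have h1 : derivative (s ^ 2 * (u : E[X])) = derivative A - C θ * derivative B := by
    rw [hu, derivative_sub, derivative_C_mul]
  rw [derivative_mul, derivative_pow] at h1
  have h2 : A = s ^ 2 * (u : E[X]) + C θ * B := by rw [hu]; ring
  have h3 : derivative A = (C ((2 : ℕ) : E) * s ^ (2 - 1) * derivative s) * (u : E[X]) +
      s ^ 2 * derivative (u : E[X]) + C θ * derivative B := by
    linear_combination -h1
  refine ⟨s * u * derivative B - (C ((2 : ℕ) : E) * derivative s * (u : E[X]) +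
    s * derivative (u : E[X])) * B, ?_⟩
  rw [wronskian, h3]
  conv_lhs => rw [h2]
  norm_num
  ring

/-- The Wronskian argument. -/
theorem wronskian_core [CharZero E] {A B : E[X]} (hAB : IsCoprime A B) (T : Finset E)
    (hT : 5 ≤ T.card)
    (hsq : ∀ θ ∈ T, ∃ s : E[X], Associated (s ^ 2) (A - C θ * B)) :
    derivative A = 0 ∧ derivative B = 0 := by
  classical
  rw [← hAB.wronskian_eq_zero_iff]
  by_contra hW
  choose! s hs using hsq
  have hcop : ∀ θ θ' : E, θ ≠ θ' → IsCoprime (A - C θ * B) (A - C θ' * B) := by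
    intro θ θ' hne
    obtain ⟨a, b, hab⟩ := hAB
    have h0 : θ' - θ ≠ 0 := sub_ne_zero.2 hne.symm
    have h1 : C (θ' - θ)⁻¹ * (C θ' - C θ) = (1 : E[X]) := by
      rw [← C_sub, ← C_mul, inv_mul_cancel₀ h0, C_1]
    -- `B (θ' - θ) = P - P'`, `A (θ' - θ) = θ' P - θ P'`
    refine ⟨C (θ' - θ)⁻¹ * (a * C θ' + b), -(C (θ' - θ)⁻¹ * (a * C θ + b)), ?_⟩
    linear_combination (C (θ' - θ)⁻¹ * (C θ' - C θ)) * hab + h1
  have hne : ∀ θ ∈ T, A - C θ * B ≠ 0 := by
    intro θ hθ h0
    obtain ⟨θ', hθ', hne⟩ := Finset.exists_mem_ne (by omega : 1 < T.card) θ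
    obtain ⟨θ'', hθ'', hne'⟩ : ∃ θ'' ∈ T, θ'' ≠ θ' ∧ θ'' ≠ θ := by
      have : 0 < ((T.erase θ).erase θ').card := by
        have h1 := Finset.pred_card_le_card_erase (s := T) (a := θ)
        have h2 := Finset.pred_card_le_card_erase (s := T.erase θ) (a := θ')
        omega
      obtain ⟨c, hc⟩ := Finset.card_pos.1 this
      rw [Finset.mem_erase, Finset.mem_erase] at hc
      exact ⟨c, hc.2.2, hc.1, hc.2.1⟩
    -- all `A - θ' B` are units, so constants, and then the Wronskian is zero
    have h1 : IsUnit (A - C θ' * B) := by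
      have := hcop θ θ' hne.symm
      rw [h0] at this
      exact isCoprime_zero_left.1 this
    have h2 : IsUnit (A - C θ'' * B) := by
      have := hcop θ θ'' hne'.2.symm
      rw [h0] at this
      exact isCoprime_zero_left.1 this
    obtain ⟨c1, hc1⟩ : ∃ c, A - C θ' * B = C c := ⟨_, eq_C_of_natDegree_eq_zero
      (natDegree_eq_zero_of_isUnit h1)⟩
    obtain ⟨c2, hc2⟩ : ∃ c, A - C θ'' * B = C c := ⟨_, eq_C_of_natDegree_eq_zero
      (natDegree_eq_zero_of_isUnit h2)⟩
    apply hW
    rw [hAB.wronskian_eq_zero_iff]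
    have h3 := congrArg derivative hc1
    have h4 := congrArg derivative hc2
    rw [derivative_C, derivative_sub, derivative_C_mul] at h3 h4
    have h5 : C (θ'' - θ') * derivative B = 0 := by
      rw [C_sub]
      linear_combination h3 - h4
    have h6 : derivative B = 0 := by
      rcases mul_eq_zero.1 h5 with h | h
      · exact absurd (C_eq_zero.1 h) (sub_ne_zero.2 hne'.1)
      · exact h
    refine ⟨?_, h6⟩
    rw [h6, mul_zero, sub_zero] at h3
    exact h3
  have hs0 : ∀ θ ∈ T, s θ ≠ 0 := by
    intro θ hθ h0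
    have h1 := hs θ hθ
    rw [h0, zero_pow two_ne_zero] at h1
    exact hne θ hθ (h1.eq_zero_iff.1 rfl)
  have hdeg : ∀ θ ∈ T, 2 * (s θ).natDegree = (A - C θ * B).natDegree := by
    intro θ hθ
    rw [← natDegree_eq_of_degree_eq (degree_eq_degree_of_associated (hs θ hθ)), natDegree_pow]
  have hdvd : ∏ θ ∈ T, s θ ∣ wronskian A B := by
    refine Finset.prod_dvd_of_coprime ?_ fun θ hθ => dvd_wr76 (hs θ hθ)
    intro θ hθ θ' hθ' hne'
    have h1 : s θ ∣ A - C θ * B := (dvd_pow_self _ two_ne_zero).trans (hs θ hθ).dvd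
    have h2 : s θ' ∣ A - C θ' * B := (dvd_pow_self _ two_ne_zero).trans (hs θ' hθ').dvd
    exact ((hcop θ θ' hne').of_isCoprime_of_dvd_left h1).of_isCoprime_of_dvd_right h2
  have h1 := natDegree_le_of_dvd hdvd hW
  rw [natDegree_prod _ _ hs0] at h1
  have h2 := natDegree_wronskian_lt_add hW
  set D := max A.natDegree B.natDegree with hD
  have hA : A.natDegree ≤ D := le_max_left _ _
  have hB : B.natDegree ≤ D := le_max_right _ _
  -- at most one `A - θ B` has degree less than `D`
  have hone : ∀ θ ∈ T, ∀ θ' ∈ T, θ ≠ θ' → (A - C θ * B).natDegree < D →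
      D ≤ (A - C θ' * B).natDegree := by
    intro θ hθ θ' hθ' hne' hlt
    by_contra hlt'
    push Not at hlt'
    have h0 : θ' - θ ≠ 0 := sub_ne_zero.2 hne'.symm
    have hBD : B.natDegree < D := by
      have h3 : B = C (θ' - θ)⁻¹ * ((A - C θ * B) - (A - C θ' * B)) := by
        have h4 : C (θ' - θ)⁻¹ * (C θ' - C θ) = (1 : E[X]) := by
          rw [← C_sub, ← C_mul, inv_mul_cancel₀ h0, C_1]
        linear_combination (-B) * h4
      rw [h3]
      refine lt_of_le_of_lt (natDegree_C_mul_le _ _) ?_
      exact lt_of_le_of_lt (natDegree_sub_le _ _) (max_lt hlt hlt')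
    have hAD : A.natDegree < D := by
      have h3 : A = (A - C θ * B) + C θ * B := by ring
      rw [h3]
      refine lt_of_le_of_lt (natDegree_add_le _ _) (max_lt hlt ?_)
      exact lt_of_le_of_lt (natDegree_C_mul_le _ _) hBD
    exact absurd hD (ne_of_gt (max_lt hAD hBD))
  have hsum : 4 * D ≤ ∑ θ ∈ T, (A - C θ * B).natDegree := by
    by_cases hex : ∃ θ₀ ∈ T, (A - C θ₀ * B).natDegree < D
    · obtain ⟨θ₀, hθ₀, hlt⟩ := hex
      have h3 : (T.erase θ₀).card * D ≤ ∑ θ ∈ T.erase θ₀, (A - C θ * B).natDegree := by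
        rw [← smul_eq_mul]
        refine Finset.card_nsmul_le_sum _ _ _ fun θ hθ => ?_
        rw [Finset.mem_erase] at hθ
        exact hone θ₀ hθ₀ θ hθ.2 hθ.1.symm hlt
      have h4 : ∑ θ ∈ T.erase θ₀, (A - C θ * B).natDegree ≤ ∑ θ ∈ T, (A - C θ * B).natDegree :=
        Finset.sum_le_sum_of_subset (Finset.erase_subset _ _)
      rw [Finset.card_erase_of_mem hθ₀] at h3
      have h5 : 4 * D ≤ (T.card - 1) * D := Nat.mul_le_mul_right _ (by omega)
      omega
    · push Not at hex
      have h3 : T.card * D ≤ ∑ θ ∈ T, (A - C θ * B).natDegree := by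
        rw [← smul_eq_mul]
        exact Finset.card_nsmul_le_sum _ _ _ hex
      have h5 : 4 * D ≤ T.card * D := Nat.mul_le_mul_right _ (by omega)
      omega
  have hsum2 : 2 * ∑ θ ∈ T, (s θ).natDegree = ∑ θ ∈ T, (A - C θ * B).natDegree := by
    rw [Finset.mul_sum]
    exact Finset.sum_congr rfl hdeg
  omega

end core


section hom

variable {E Ω : Type*} [Field E] [Field Ω] [Algebra E Ω]

/-- the homogenization of a polynomial with distinct roots -/
private theorem split76 [IsAlgClosed E] {f : E[X]} (hf : f.Separable) :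
    ∃ T : Finset E, T.card = f.natDegree ∧ f = C f.leadingCoeff * ∏ θ ∈ T, (X - C θ) := by
  classical
  have h1 := C_leadingCoeff_mul_prod_multiset_X_sub_C (p := f)
    ((splits_iff_card_roots).1 (IsAlgClosed.splits f))
  have h2 := nodup_roots hf
  refine ⟨f.roots.toFinset, ?_, ?_⟩
  · rw [Multiset.toFinset_card_of_nodup h2]
    exact splits_iff_card_roots.1 (IsAlgClosed.splits f)
  · conv_lhs => rw [← h1]
    congr 1
    rw [Finset.prod, Multiset.toFinset_val, Multiset.dedup_eq_self.2 h2]

/-- a square in the field `E(y)` -/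
private theorem sq_of76 [IsAlgClosed E] [CharZero E] {f : E[X]} (hf : f.Separable)
    (h5 : 5 ≤ f.natDegree) {y : Ω} (hy : Transcendental E y) {A B U V : E[X]}
    (hAB : IsCoprime A B) (hB : B ≠ 0) (hV : V ≠ 0)
    (h : (aeval y U / aeval y V) ^ 2 = aeval (aeval y A / aeval y B) f) :
    derivative A = 0 ∧ derivative B = 0 := by
  classical
  obtain ⟨T, hT, hfT⟩ := split76 hf
  have hinj : Function.Injective (aeval (R := E) y) := transcendental_iff_injective.1 hy
  have hBy : aeval y B ≠ 0 := fun h0 => hB (hinj (by rw [h0, map_zero]))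
  have hVy : aeval y V ≠ 0 := fun h0 => hV (hinj (by rw [h0, map_zero]))
  have hf0 : f ≠ 0 := by
    rintro rfl
    rw [natDegree_zero] at h5
    omega
  -- the homogenization
  have h1 : aeval (aeval y A / aeval y B) f * aeval y B ^ T.card =
      aeval y (C f.leadingCoeff * ∏ θ ∈ T, (A - C θ * B)) := by
    conv_lhs => rw [hfT]
    rw [map_mul, map_mul, map_prod, map_prod, aeval_C, aeval_C, mul_assoc, ← Finset.prod_const,
      ← Finset.prod_mul_distrib]
    congr 1
    refine Finset.prod_congr rfl fun θ _ => ?_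
    rw [map_sub, map_sub, map_mul, aeval_X, aeval_C, aeval_C]
    field_simp
  have h2 : (U * B ^ T.card) ^ 2 = V ^ 2 * ((C f.leadingCoeff * ∏ θ ∈ T, (A - C θ * B)) *
      B ^ T.card) := by
    apply hinj
    rw [map_pow, map_mul, map_mul, map_mul, ← h1, ← h, map_pow, map_pow]
    field_simp
  have h3 : V ∣ U * B ^ T.card := by
    have h3 : V ^ 2 ∣ (U * B ^ T.card) ^ 2 := by
      rw [h2]
      exact dvd_mul_right _ _
    exact (IsIntegrallyClosed.pow_dvd_pow_iff two_ne_zero).1 h3
  obtain ⟨S, hS⟩ := h3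
  rw [hS, mul_pow] at h2
  have h4 := mul_left_cancel₀ (pow_ne_zero 2 hV) h2
  have hcop : ∀ θ θ' : E, θ ≠ θ' → IsCoprime (A - C θ * B) (A - C θ' * B) := by
    intro θ θ' hne
    obtain ⟨a, b, hab⟩ := hAB
    have h0 : θ' - θ ≠ 0 := sub_ne_zero.2 hne.symm
    have h1 : C (θ' - θ)⁻¹ * (C θ' - C θ) = (1 : E[X]) := by
      rw [← C_sub, ← C_mul, inv_mul_cancel₀ h0, C_1]
    refine ⟨C (θ' - θ)⁻¹ * (a * C θ' + b), -(C (θ' - θ)⁻¹ * (a * C θ + b)), ?_⟩
    linear_combination (C (θ' - θ)⁻¹ * (C θ' - C θ)) * hab + h1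
  refine wronskian_core hAB T (by omega) fun θ hθ => ?_
  have h6 : (A - C θ * B) * (C f.leadingCoeff * (∏ θ' ∈ T.erase θ, (A - C θ' * B)) * B ^ T.card) =
      S ^ 2 := by
    rw [h4, ← Finset.mul_prod_erase T _ hθ]
    ring
  refine exists_associated_pow_of_mul_eq_pow' ?_ h6
  refine IsCoprime.mul_right (IsCoprime.mul_right ?_ ?_) ?_
  · obtain ⟨w, hw⟩ := isUnit_C.2 (leadingCoeff_ne_zero.2 hf0).isUnit
    exact ⟨0, ((w⁻¹ : E[X]ˣ) : E[X]), by rw [zero_mul, zero_add, ← hw, Units.inv_mul]⟩
  · refine IsCoprime.prod_right fun θ' hθ' => hcop θ θ' ?_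
    rw [Finset.mem_erase] at hθ'
    exact hθ'.1.symm
  · refine IsCoprime.pow_right ?_
    obtain ⟨a, b, hab⟩ := hAB
    exact ⟨a, b + a * C θ, by linear_combination hab⟩

end hom

section final

variable {k : Type} [Field k] [CharZero k]

/-- an element of `E(y)` is a quotient of polynomials in `y` -/
private theorem quot76 {E Ω : Type*} [Field E] [Field Ω] [Algebra E Ω] {y z : Ω}
    (hy : Transcendental E y) (hz : z ∈ IntermediateField.adjoin E {y}) :
    ∃ A B : E[X], IsCoprime A B ∧ B ≠ 0 ∧ z = aeval y A / aeval y B := by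
  classical
  obtain ⟨r, s, hrs⟩ := (IntermediateField.mem_adjoin_simple_iff E z).1 hz
  by_cases hs : s = 0
  · refine ⟨0, 1, isCoprime_one_right, one_ne_zero, ?_⟩
    rw [hrs, hs, map_zero, div_zero, zero_div]
  · have hinj : Function.Injective (aeval (R := E) y) := transcendental_iff_injective.1 hy
    have hg : EuclideanDomain.gcd r s ≠ 0 := fun h0 => hs (EuclideanDomain.gcd_eq_zero_iff.1 h0).2
    obtain ⟨A, hA⟩ := EuclideanDomain.gcd_dvd_left r s
    obtain ⟨B, hB⟩ := EuclideanDomain.gcd_dvd_right r s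
    have hB0 : B ≠ 0 := by
      rintro rfl
      rw [mul_zero] at hB
      exact hs hB
    refine ⟨A, B, ?_, hB0, ?_⟩
    · refine ⟨EuclideanDomain.gcdA r s, EuclideanDomain.gcdB r s, ?_⟩
      apply mul_left_cancel₀ hg
      have h1 := EuclideanDomain.gcd_eq_gcd_ab r s
      rw [mul_one]
      conv_rhs => rw [h1]
      linear_combination (-EuclideanDomain.gcdA r s) * hA - (EuclideanDomain.gcdB r s) * hB
    · have hgy : aeval y (EuclideanDomain.gcd r s) ≠ 0 := fun h0 => hg (hinj (by rw [h0, map_zero]))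
      have hBy : aeval y B ≠ 0 := fun h0 => hB0 (hinj (by rw [h0, map_zero]))
      have h1 := congrArg (aeval y) hA
      have h2 := congrArg (aeval y) hB
      rw [map_mul] at h1 h2
      rw [hrs, h1, h2, mul_div_mul_left _ _ hgy]

/-- BLOCK GC: hyperelliptic curves are good. -/
theorem gC : ∀ (k : Type) [Field k] [CharZero k] (f : k[X]), f.Separable → 5 ≤ f.natDegree →
    Pool.Agent.L.GoodCurve k (algebraMap k[X] (FractionRing k[X]) f) := by
  intro k _ _ f hf h5
  set K := FractionRing k[X] with hK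
  set Ω := AlgebraicClosure K with hΩ
  have : CharZero Ω := charZero_of_injective_algebraMap (algebraMap k Ω).injective
  let E := algebraicClosure k Ω
  have hEc : IsAlgClosed E := (algebraicClosure.isAlgClosure k Ω).isAlgClosed
  have : CharZero E := charZero_of_injective_algebraMap (algebraMap k E).injective
  -- the variable
  let x₀ : K := algebraMap k[X] K X
  let x : Ω := algebraMap K Ω x₀
  have hx₀ : Transcendental k x₀ := by
    rw [transcendental_algebraMap_iff (IsFractionRing.injective k[X] K)]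
    exact transcendental_X k
  have hxk : Transcendental k x :=
    (transcendental_algebraMap_iff (algebraMap K Ω).injective).2 hx₀
  have hx : Transcendental E x := hxk.algebraicClosure
  have hgen : IntermediateField.adjoin k {x₀} = ⊤ := by
    rw [eq_top_iff]
    intro z _
    have hpoly : ∀ p : k[X], algebraMap k[X] K p ∈ IntermediateField.adjoin k {x₀} := by
      intro p
      have h1 : algebraMap k[X] K p = aeval x₀ p := by
        rw [aeval_algebraMap_apply, aeval_X_left_apply]
      rw [h1]
      exact (IntermediateField.algebra_adjoin_le_adjoin _ _) (aeval_mem_adjoin_singleton _ _)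
    obtain ⟨p, q, _, rfl⟩ := IsFractionRing.div_surjective (A := k[X]) z
    exact div_mem (hpoly p) (hpoly q)
  have hcst : (cst k K : Set Ω) = Set.range (algebraMap E Ω) := by
    ext z
    constructor
    · intro hz
      exact ⟨⟨z, mem_algebraicClosure_iff.2 hz⟩, rfl⟩
    · rintro ⟨z, rfl⟩
      exact mem_algebraicClosure_iff.1 z.2
  -- the field `E(x)`
  have hKx : ∀ z : K, algebraMap K Ω z ∈ IntermediateField.adjoin E {x} := by
    intro z
    have hz : z ∈ IntermediateField.adjoin k {x₀} := by rw [hgen]; trivial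
    obtain ⟨r, s, rfl⟩ := (IntermediateField.mem_adjoin_simple_iff k z).1 hz
    have hpoly : ∀ p : k[X], algebraMap K Ω (aeval x₀ p) ∈ IntermediateField.adjoin E {x} := by
      intro p
      have h1 : algebraMap K Ω (aeval x₀ p) = aeval x (p.map (algebraMap k E)) := by
        rw [aeval_map_algebraMap]
        exact (aeval_algebraMap_apply Ω x₀ p).symm
      rw [h1]
      exact (IntermediateField.algebra_adjoin_le_adjoin _ _) (aeval_mem_adjoin_singleton _ _)
    rw [map_div₀]
    exact div_mem (hpoly r) (hpoly s)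
  set fE := f.map (algebraMap k E) with hfE
  have hfs : fE.Separable := hf.map
  have hfd : fE.natDegree = f.natDegree := natDegree_map _
  have hfx : algebraMap K Ω (algebraMap k[X] K f) = aeval x fE := by
    rw [hfE, aeval_map_algebraMap, aeval_algebraMap_apply, aeval_algebraMap_apply,
      aeval_X_left_apply]
  refine ⟨⟨x₀, hx₀, ?_⟩, ?_, ?_⟩
  · rw [hgen]
    refine Module.Finite.of_surjective (R := (⊤ : IntermediateField k K))
      (M := (⊤ : IntermediateField k K))
      (Algebra.linearMap (⊤ : IntermediateField k K) K) ?_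
    intro z
    exact ⟨⟨z, IntermediateField.mem_top⟩, rfl⟩
  · intro r hr hmem
    have hmem' : r ∈ IntermediateField.adjoin E {x} := by
      have hle : Subfield.closure (cst k K ∪ Set.range (algebraMap K Ω)) ≤
          (IntermediateField.adjoin E {x}).toSubfield := by
        rw [Subfield.closure_le]
        rintro z (hz | ⟨z, rfl⟩)
        · rw [hcst] at hz
          obtain ⟨z, rfl⟩ := hz
          exact (IntermediateField.adjoin E {x}).algebraMap_mem z
        · exact hKx z
      exact hle hmem
    obtain ⟨U, V, hUV, hV, hr'⟩ := quot76 hx hmem'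
    have h1 := sq_of76 (U := U) (V := V) (A := X) (B := 1) hfs (by rw [hfd]; exact h5) hx
      isCoprime_one_right one_ne_zero hV (by rw [← hr', hr, hfx, aeval_X, map_one, div_one])
    rw [derivative_X] at h1
    exact one_ne_zero h1.1
  · intro r hr y heq
    have hmem : ∀ z ∈ cst k K ∪ Set.range (algebraMap K Ω) ∪ {r},
        z ∈ IntermediateField.adjoin E {y} := by
      intro z hz
      have h1 : z ∈ Subfield.closure (cst k K ∪ {y}) := by
        rw [← heq]
        exact Subfield.subset_closure hz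
      rw [hcst] at h1
      exact h1
    have hxm : x ∈ IntermediateField.adjoin E {y} := hmem x (Or.inl (Or.inr ⟨x₀, rfl⟩))
    have hrm : r ∈ IntermediateField.adjoin E {y} := hmem r (Or.inr rfl)
    have hy : Transcendental E y := by
      intro hy
      have h1 : Algebra.IsAlgebraic E (IntermediateField.adjoin E {y}) :=
        IntermediateField.isAlgebraic_adjoin_simple hy.isIntegral
      have h3 := h1.isAlgebraic ⟨x, hxm⟩
      exact hx (h3.algebraMap (A := Ω))
    obtain ⟨A, B, hAB, hB, hxAB⟩ := quot76 hy hxm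
    obtain ⟨U, V, hUV, hV, hr'⟩ := quot76 hy hrm
    obtain ⟨hA', hB'⟩ := sq_of76 (U := U) (V := V) hfs (by rw [hfd]; exact h5) hy hAB hB hV
      (by rw [← hr', hr, hfx, ← hxAB])
    have hAc := derivative_eq_zero.1 hA'
    have hBc := derivative_eq_zero.1 hB'
    rw [eq_C_of_natDegree_eq_zero hAc, eq_C_of_natDegree_eq_zero hBc, aeval_C, aeval_C,
      ← map_div₀] at hxAB
    rw [hxAB] at hx
    exact hx (isAlgebraic_algebraMap _)

end final

end Pool.Agent.TW

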